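import Pool.Graph.R_pool_sql_team_seeded_64922ed1.H313.CC.Engine

/-!
Characters of finite abelian groups and multiplicities of zeros.
-/

set_option autoImplicit false
set_option linter.all false
set_option maxHeartbeats 1000000

open Polynomial

namespace Pool.Agent.H427.CT

/-- zeros which coincide after a reduction -/
theorem sum_le_mult {A E R : Type} [CommRing A] [Field E] [Field R] {φ : A →+* E}
    (hφ : Function.Injective φ) (ρ : A →+* R) (V : Finset A) {β : R} (hβ : β ≠ 0)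
    (hρ : ∀ α ∈ V, ρ α = β) {Q : A[X]} (hQ : Q.map ρ ≠ 0) (h0 : ∀ α ∈ V, φ α ≠ 0) :
    ∑ α ∈ V, (Q.map φ).rootMultiplicity (φ α)⁻¹ ≤ (Q.map ρ).rootMultiplicity β⁻¹ := by
  classical
  set r : A → ℕ := fun α => (Q.map φ).rootMultiplicity (φ α)⁻¹ with hr
  have h1 : (∏ α ∈ V, (1 - C (φ α) * X) ^ r α) ∣ Q.map φ := by
    apply Finset.prod_dvd_of_coprime
    · intro α hα γ hγ hne
      have hne' : φ γ - φ α ≠ 0 := sub_ne_zero.2 (fun e => hne (hφ e).symm)
      have h2 : C (φ γ - φ α) * C (φ γ - φ α)⁻¹ = 1 := by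
        rw [← C_mul, mul_inv_cancel₀ hne', C_1]
      rw [C_sub] at h2
      apply IsCoprime.pow
      refine ⟨C (φ γ) * C (φ γ - φ α)⁻¹, -(C (φ α) * C (φ γ - φ α)⁻¹), ?_⟩
      linear_combination h2
    · intro α hα
      have h2 : (1 - C (φ α) * X : E[X]) = (X - C (φ α)⁻¹) * C (-(φ α)) := by
        have h3 : C (φ α)⁻¹ * C (φ α) = 1 := by
          rw [← C_mul, inv_mul_cancel₀ (h0 α hα), C_1]
        rw [C_neg]
        linear_combination -h3
      rw [h2, mul_pow, ((isUnit_C.2 (neg_ne_zero.2 (h0 α hα)).isUnit).pow _).mul_right_dvd]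
      exact pow_rootMultiplicity_dvd _ _
  have h2 : (∏ α ∈ V, (1 - C α * X) ^ r α) ∣ Q := by
    apply Pool.Agent.TH639.SC.dvd_of_map_dvd φ hφ
    · rw [coeff_zero_eq_eval_zero, eval_prod]
      simp
    · rw [Polynomial.map_prod]
      simpa using h1
  have h3 := Polynomial.map_dvd ρ h2
  rw [Polynomial.map_prod] at h3
  have h4 : ∀ α ∈ V, ((1 - C α * X : A[X]) ^ r α).map ρ = (1 - C β * X) ^ r α := by
    intro α hα
    rw [Polynomial.map_pow, Polynomial.map_sub, Polynomial.map_one, Polynomial.map_mul,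
      Polynomial.map_C, Polynomial.map_X, hρ α hα]
  rw [Finset.prod_congr rfl h4, Finset.prod_pow_eq_pow_sum] at h3
  rw [le_rootMultiplicity_iff hQ]
  refine (pow_dvd_pow_of_dvd (⟨-C β, ?_⟩ : (X - C (β⁻¹ : R)) ∣ 1 - C β * X) _).trans h3
  have h5 : C β⁻¹ * C β = (1 : R[X]) := by
    rw [← C_mul, inv_mul_cancel₀ hβ, C_1]
  linear_combination -h5

section group

variable {G : Type} [CommGroup G] [Finite G] {A : Type} [CommRing A] [IsDomain A]

theorem range_cyclic (χ : G →* Aˣ) : IsCyclic χ.range := by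
  have : Finite χ.range := Set.finite_range χ
  infer_instance

theorem quot_cyclic (χ : G →* Aˣ) : IsCyclic (G ⧸ χ.ker) := by
  have := range_cyclic χ
  exact isCyclic_of_injective (QuotientGroup.quotientKerEquivRange χ).toMonoidHom
    (QuotientGroup.quotientKerEquivRange χ).injective

/-- the fibres of a character -/
theorem card_fibre (χ : G →* Aˣ) [Fintype G] [DecidableEq Aˣ] (α : Aˣ) :
    (Finset.univ.filter fun g => χ g = α).card ≤ Nat.card χ.ker := by
  classical
  rcases (Finset.univ.filter fun g => χ g = α).eq_empty_or_nonempty with h | ⟨g₀, hg₀⟩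
  · rw [h]; simp
  · rw [Finset.mem_filter] at hg₀
    have : Fintype χ.ker := Fintype.ofFinite _
    rw [Nat.card_eq_fintype_card, ← Finset.card_univ]
    refine Finset.card_le_card_of_injOn (fun g => if h : χ g = α then
      (⟨g * g₀⁻¹, by rw [MonoidHom.mem_ker, map_mul, map_inv, h, hg₀.2, mul_inv_cancel]⟩ : χ.ker)
      else 1) (fun _ _ => Finset.mem_coe.2 (Finset.mem_univ _)) ?_
    intro g hg g' hg' h
    rw [Finset.mem_coe, Finset.mem_filter] at hg hg'
    simp only [dif_pos hg.2, dif_pos hg'.2] at h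
    exact mul_right_cancel (congrArg Subtype.val h)

/-- two characters with the same kernel -/
theorem exists_pow {χ χ' : G →* Aˣ} (h : χ.ker = χ'.ker) :
    ∃ j : ℕ, j.Coprime (Nat.card (G ⧸ χ.ker)) ∧ χ' = χ ^ j := by
  classical
  obtain ⟨c, hc⟩ := (quot_cyclic χ).exists_generator
  obtain ⟨g, rfl⟩ := QuotientGroup.mk_surjective c
  set o := Nat.card (G ⧸ χ.ker) with ho
  have hfin : Finite (G ⧸ χ.ker) := inferInstance
  have hgen : ∀ x : G, ∃ i : ℤ, ∃ y ∈ χ.ker, x = g ^ i * y := by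
    intro x
    obtain ⟨i, hi⟩ := Subgroup.mem_zpowers_iff.1 (hc (x : G ⧸ χ.ker))
    refine ⟨i, (g ^ i)⁻¹ * x, ?_, by group⟩
    rw [← QuotientGroup.eq]
    exact_mod_cast hi
  have hord : ∀ n : ℤ, g ^ n ∈ χ.ker ↔ (o : ℤ) ∣ n := by
    intro n
    rw [← QuotientGroup.eq_one_iff, QuotientGroup.mk_zpow, ← orderOf_dvd_iff_zpow_eq_one,
      orderOf_eq_card_of_forall_mem_zpowers hc]
  have p1 : IsPrimitiveRoot (χ g) o := by
    constructor
    · rw [← map_pow, ← MonoidHom.mem_ker, ← zpow_natCast, hord]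
    · intro l hl
      rw [← map_pow, ← MonoidHom.mem_ker, ← zpow_natCast, hord] at hl
      exact_mod_cast hl
  have p2 : IsPrimitiveRoot (χ' g) o := by
    constructor
    · rw [← map_pow, ← MonoidHom.mem_ker, ← h, ← zpow_natCast, hord]
    · intro l hl
      rw [← map_pow, ← MonoidHom.mem_ker, ← h, ← zpow_natCast, hord] at hl
      exact_mod_cast hl
  have ho0 : 0 < o := Nat.card_pos
  have : NeZero o := ⟨ho0.ne'⟩
  have q1 := p1.map_of_injective (f := Units.coeHom A) Units.val_injective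
  have q2 := p2.map_of_injective (f := Units.coeHom A) Units.val_injective
  obtain ⟨j, -, hj, hjj⟩ := (q1.isPrimitiveRoot_iff).1 q2
  refine ⟨j, hj, ?_⟩
  ext x
  obtain ⟨i, y, hy, rfl⟩ := hgen x
  have hy' : y ∈ χ'.ker := by rw [← h]; exact hy
  have e1 : χ' g = χ g ^ j := by
    apply Units.ext
    rw [Units.val_pow_eq_pow_val]
    exact hjj.symm
  rw [MonoidHom.pow_apply, map_mul, map_mul, hy, hy', mul_one, mul_one, map_zpow, map_zpow, e1,
    ← zpow_natCast, ← zpow_mul, ← zpow_natCast, ← zpow_mul, mul_comm]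

end group

end Pool.Agent.H427.CT
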