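import Pool.Agent.H427.CT.Ser

/-!
The constant twists of an abelian covering of `ℓ`-power degree.
-/

set_option autoImplicit false
set_option linter.all false
set_option maxHeartbeats 1000000

open Polynomial NumberField

namespace Pool.Agent.H427.CT

open Pool.Agent.H313.CC Pool.Agent.W343.BSD
open Pool.Agent.TH639.SG (eq_one_of_pow)

/-- the multiplicity of the zero `1 / q` modulo `ℓ` -/
noncomputable def mq (ℓ q : ℕ) (P : ℤ[X]) : ℕ :=
  (P.map (Int.castRingHom (ZMod ℓ))).rootMultiplicity ((q : ℕ) : ZMod ℓ)⁻¹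

/-- the order of the zero `1 / q` -/
noncomputable def oq (q : ℕ) (P : ℤ[X]) : ℕ :=
  (P.map (Int.castRingHom ℚ)).rootMultiplicity (q : ℚ)⁻¹

theorem mq_eq {ℓ q : ℕ} [Fact ℓ.Prime] {R : Type} [Field R] [CharP R ℓ] (P : ℤ[X]) :
    (P.map (Int.castRingHom R)).rootMultiplicity ((q : ℕ) : R)⁻¹ = mq ℓ q P := by
  unfold mq
  have h1 := Polynomial.eq_rootMultiplicity_map (p := P.map (Int.castRingHom (ZMod ℓ)))
    (ZMod.castHom dvd_rfl R).injective (((q : ℕ) : ZMod ℓ)⁻¹)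
  rw [h1, map_inv₀, map_natCast, Polynomial.map_map]
  congr 2
  exact RingHom.ext_int _ _

theorem inv_unique' {S : Type} [CommRing S] {a b c : S} (h1 : a * b = 1) (h2 : a * c = 1) :
    b = c := by
  calc b = b * (a * c) := by rw [h2, mul_one]
  _ = (a * b) * c := by ring
  _ = c := by rw [h1, one_mul]

/-- the numbers of the characters with a given kernel -/
theorem card_chars {G : Type} [CommGroup G] [Finite G] {A : Type} [CommRing A] [IsDomain A]
    (H : Subgroup G) (T : Finset (G →* Aˣ)) (hT : ∀ χ ∈ T, χ.ker = H) :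
    T.card ≤ Nat.totient (Nat.card (G ⧸ H)) := by
  classical
  rcases T.eq_empty_or_nonempty with rfl | ⟨χ, hχ⟩
  · simp
  have hH := hT χ hχ
  subst hH
  set o := Nat.card (G ⧸ χ.ker) with ho
  have ho0 : 0 < o := Nat.card_pos
  rw [Nat.totient_eq_card_coprime]
  have hpow : ∀ x : G, χ x ^ o = 1 := by
    intro x
    rw [← map_pow, ← MonoidHom.mem_ker, ← QuotientGroup.eq_one_iff, QuotientGroup.mk_pow, ho]
    exact pow_card_eq_one'
  refine le_trans (Finset.card_le_card (t := ((Finset.range o).filter fun j => o.Coprime j).image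
    fun j => χ ^ j) ?_) Finset.card_image_le
  intro χ' hχ'
  obtain ⟨j, hj, rfl⟩ := exists_pow (χ := χ) (χ' := χ') (hT χ' hχ').symm
  rw [Finset.mem_image]
  refine ⟨j % o, ?_, ?_⟩
  · rw [Finset.mem_filter, Finset.mem_range]
    refine ⟨Nat.mod_lt _ ho0, ?_⟩
    have h1 : (j % o).Coprime o := by
      rw [Nat.Coprime, ← Nat.gcd_rec, Nat.gcd_comm]
      exact hj
    exact h1.symm
  · ext x
    rw [MonoidHom.pow_apply, MonoidHom.pow_apply]
    congr 1
    conv_rhs => rw [← Nat.mod_add_div j o, pow_add, pow_mul, hpow, one_pow, mul_one]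

open Classical in
/-- **The constant twists.** -/
theorem twists {ι G : Type} [CommGroup G] [Fintype G] {d : ι → ℕ} {L : ι → ℤ[X]}
    {D : Cover ι G} (hfin : ∀ n, {z | d z ≤ n}.Finite) (hpos : ∀ z, 0 < d z)
    (hL : ∀ z, (L z).coeff 0 = 1) (B : Finset ι) (hB : ∀ v, v ∉ B → D.inertia v = ⊥)
    {ℓ a q : ℕ} (hℓ : ℓ.Prime) (hq : ¬ ℓ ∣ q) (hG : ∀ x : G, x ^ ℓ ^ a = 1)
    (E : Type) [Field E] [NumberField E] [IsGalois ℚ E] {ω : E} (hω : IsPrimitiveRoot ω (ℓ ^ a))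
    {R₁ R₂ : ℤ[X]} (hR₁ : R₁.coeff 0 = 1) (hR₂ : R₂.coeff 0 = 1)
    (hR : zAll d L * (R₁ : PowerSeries ℤ) = (R₂ : PowerSeries ℤ))
    (hpoly : ∀ χ : G →* (𝓞 E)ˣ, χ ≠ 1 → ∃ Q : (𝓞 E)[X],
      cS d L D χ 1 * (Q : PowerSeries (𝓞 E)) = 1)
    (P : G → ℤ[X]) (hP : ∀ g : G, (∏ᶠ (χ : G →* (𝓞 E)ˣ) (_ : χ ≠ 1), cS d L D χ g) *
      PowerSeries.map (algebraMap ℤ (𝓞 E)) (P g : PowerSeries ℤ) = 1) :
    (∑ g : G, oq q (P g) ≤ (mq ℓ q R₁ + ∑ v ∈ B, mq ℓ q ((L v).comp (X ^ d v)) - mq ℓ q R₂) *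
      ∑ H : Subgroup G, (if H ≠ ⊤ ∧ IsCyclic (G ⧸ H) then
        Nat.totient (Nat.card (G ⧸ H)) * Nat.card H else 0)) ∧
    ((Finset.univ.filter fun g => oq q (P g) ≠ 0).card ≤
      (mq ℓ q R₁ + ∑ v ∈ B, mq ℓ q ((L v).comp (X ^ d v)) - mq ℓ q R₂) *
      ∑ H : Subgroup G, (if H ≠ ⊤ ∧ IsCyclic (G ⧸ H) then Nat.card H else 0)) := by
  have hFℓ : Fact ℓ.Prime := ⟨hℓ⟩
  have hX : Finite (G →* (𝓞 E)ˣ) := inferInstance
  have hXf : Fintype (G →* (𝓞 E)ˣ) := Fintype.ofFinite _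
  have hq0 : q ≠ 0 := by
    rintro rfl
    exact hq (dvd_zero _)
  -- the reduction
  obtain ⟨M, hM, hm⟩ := Pool.Agent.TH639.SC.exists_red (𝓞 E) hℓ
  letI : Field (𝓞 E ⧸ M) := Ideal.Quotient.field M
  have h0 : ((ℓ : ℕ) : 𝓞 E ⧸ M) = 0 := by
    have := Ideal.Quotient.eq_zero_iff_mem.2 hm
    rwa [map_natCast] at this
  have hc : CharP (𝓞 E ⧸ M) ℓ := Pool.Agent.TH639.SC.charP_of_mem hℓ h0
  set ρ : 𝓞 E →+* (𝓞 E ⧸ M) := Ideal.Quotient.mk M with hρd
  have hqR : ((q : ℕ) : 𝓞 E ⧸ M) ≠ 0 := by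
    rw [Ne, CharP.cast_eq_zero_iff (𝓞 E ⧸ M) ℓ]
    exact hq
  have hρ : ∀ (χ : G →* (𝓞 E)ˣ) (x : G), ρ (χ x) = 1 := by
    intro χ x
    apply eq_one_of_pow (ℓ := ℓ) (m := a)
    rw [← map_pow, ← Units.val_pow_eq_pow_val, ← map_pow, hG, map_one, Units.val_one, map_one]
  set φ := algebraMap (𝓞 E) E with hφd
  have hφ : Function.Injective φ := RingOfIntegers.coe_injective
  choose! Q hQ using hpoly
  have hQ0 : ∀ χ : G →* (𝓞 E)ˣ, χ ≠ 1 → (Q χ).coeff 0 = 1 := by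
    intro χ hχ
    have h1 := congrArg PowerSeries.constantCoeff (hQ χ hχ)
    rw [map_mul, cS_unit hfin hpos, one_mul, map_one,
      ← PowerSeries.coeff_zero_eq_constantCoeff_apply, Polynomial.coeff_coe] at h1
    exact h1
  have hne : ∀ {S T : Type} [CommRing S] [CommRing T] [Nontrivial T] {f : S[X]} (τ : S →+* T),
      f.coeff 0 = 1 → f.map τ ≠ 0 := by
    intro S T _ _ _ f τ hf h
    have h1 := congrArg (fun p => Polynomial.coeff p 0) h
    simp only [Polynomial.coeff_map, hf, map_one, Polynomial.coeff_zero] at h1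
    exact one_ne_zero h1
  set μ := mq ℓ q R₁ + ∑ v ∈ B, mq ℓ q ((L v).comp (X ^ d v)) - mq ℓ q R₂ with hμ
  -- the multiplicities modulo `ℓ`
  have hmult : ∀ χ : G →* (𝓞 E)ˣ, χ ≠ 1 →
      ((Q χ).map ρ).rootMultiplicity ((q : ℕ) : 𝓞 E ⧸ M)⁻¹ ≤ μ := by
    intro χ hχ
    set T := B.filter (fun v => ¬ ∀ x ∈ D.inertia v, χ x = 1) with hTd
    have hT : ∀ v, v ∈ T ↔ ¬ ∀ x ∈ D.inertia v, χ x = 1 := by
      intro v
      rw [hTd, Finset.mem_filter]
      constructor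
      · exact fun h => h.2
      · intro h
        refine ⟨?_, h⟩
        by_contra hvB
        apply h
        intro x hx
        rw [hB v hvB, Subgroup.mem_bot] at hx
        rw [hx, map_one]
    have h1 := cS_red (D := D) hfin hL ρ (hρ χ) 1 T hT
    have h2 : PowerSeries.map ρ (cS d L D χ 1) *
        (((Q χ).map ρ : (𝓞 E ⧸ M)[X]) : PowerSeries (𝓞 E ⧸ M)) = 1 := by
      rw [Polynomial.polynomial_map_coe, ← map_mul, hQ χ hχ, map_one]
    have h3 : PowerSeries.map (Int.castRingHom (𝓞 E ⧸ M)) (zAll d L) *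
        ((R₁.map (Int.castRingHom (𝓞 E ⧸ M)) : (𝓞 E ⧸ M)[X]) : PowerSeries (𝓞 E ⧸ M)) =
        ((R₂.map (Int.castRingHom (𝓞 E ⧸ M)) : (𝓞 E ⧸ M)[X]) : PowerSeries (𝓞 E ⧸ M)) := by
      rw [Polynomial.polynomial_map_coe, ← map_mul, hR, Polynomial.polynomial_map_coe]
    set BB := ∏ v ∈ T, ((L v).comp (X ^ d v)).map (Int.castRingHom (𝓞 E ⧸ M)) with hBB
    have h4 : BB * R₁.map (Int.castRingHom (𝓞 E ⧸ M)) =
        R₂.map (Int.castRingHom (𝓞 E ⧸ M)) * (Q χ).map ρ := by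
      apply Polynomial.coe_injective (𝓞 E ⧸ M)
      rw [Polynomial.coe_mul, Polynomial.coe_mul, ← h3, h1]
      calc ((BB : (𝓞 E ⧸ M)[X]) : PowerSeries (𝓞 E ⧸ M)) *
            ((R₁.map (Int.castRingHom (𝓞 E ⧸ M)) : (𝓞 E ⧸ M)[X]) : PowerSeries (𝓞 E ⧸ M))
          = (PowerSeries.map ρ (cS d L D χ 1) *
            (((Q χ).map ρ : (𝓞 E ⧸ M)[X]) : PowerSeries (𝓞 E ⧸ M))) *
            (((BB : (𝓞 E ⧸ M)[X]) : PowerSeries (𝓞 E ⧸ M)) *
            ((R₁.map (Int.castRingHom (𝓞 E ⧸ M)) : (𝓞 E ⧸ M)[X]) :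
              PowerSeries (𝓞 E ⧸ M))) := by rw [h2, one_mul]
      _ = _ := by ring
    have hBne : ∀ v ∈ T,
        ((L v).comp (X ^ d v)).map (Int.castRingHom (𝓞 E ⧸ M)) ≠ 0 := fun v _ =>
      hne _ (comp_coeff_zero (hL v) (hpos v))
    have hBBne : BB ≠ 0 := Finset.prod_ne_zero_iff.2 hBne
    have h5 : rootMultiplicity ((q : ℕ) : 𝓞 E ⧸ M)⁻¹ (BB * R₁.map (Int.castRingHom (𝓞 E ⧸ M))) =
        rootMultiplicity ((q : ℕ) : 𝓞 E ⧸ M)⁻¹
          (R₂.map (Int.castRingHom (𝓞 E ⧸ M)) * (Q χ).map ρ) := by rw [h4]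
    rw [rootMultiplicity_mul (mul_ne_zero hBBne (hne _ hR₁)),
      rootMultiplicity_mul (mul_ne_zero (hne _ hR₂) (hne _ (hQ0 χ hχ))),
      Pool.Agent.W343.BSD.rm_prod _ _ _ hBne, mq_eq, mq_eq] at h5
    have h6 : ∑ v ∈ T, rootMultiplicity ((q : ℕ) : 𝓞 E ⧸ M)⁻¹
          (((L v).comp (X ^ d v)).map (Int.castRingHom (𝓞 E ⧸ M))) ≤
        ∑ v ∈ B, mq ℓ q ((L v).comp (X ^ d v)) := by
      rw [Finset.sum_congr rfl fun v _ => mq_eq ((L v).comp (X ^ d v))]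
      exact Finset.sum_le_sum_of_subset (Finset.filter_subset _ _)
    omega
  -- the orders of the factors
  set n : (G →* (𝓞 E)ˣ) → G → ℕ := fun χ g =>
    ((Q χ).map φ).rootMultiplicity (φ (χ g) * (q : E)⁻¹) with hn
  have hsum : ∀ χ : G →* (𝓞 E)ˣ, χ ≠ 1 → ∑ g : G, n χ g ≤ μ * Nat.card χ.ker := by
    intro χ hχ
    have h1 : ∑ g : G, n χ g = ∑ α ∈ Finset.univ.image (fun g => χ g),
        (Finset.univ.filter fun g => χ g = α).card *
          ((Q χ).map φ).rootMultiplicity (φ (α : 𝓞 E) * (q : E)⁻¹) := by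
      rw [← Finset.sum_fiberwise_of_maps_to (s := Finset.univ)
        (t := Finset.univ.image (fun g => χ g)) (g := fun g => χ g)
        (fun g _ => Finset.mem_image_of_mem _ (Finset.mem_univ g))]
      refine Finset.sum_congr rfl fun α _ => ?_
      rw [Finset.sum_congr rfl (g := fun _ => ((Q χ).map φ).rootMultiplicity
        (φ (α : 𝓞 E) * (q : E)⁻¹)) (fun g hg => by
          rw [hn]; simp only; rw [(Finset.mem_filter.1 hg).2]), Finset.sum_const, smul_eq_mul]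
    have h2 : ∑ α ∈ Finset.univ.image (fun g => χ g),
        ((Q χ).map φ).rootMultiplicity (φ (α : 𝓞 E) * (q : E)⁻¹) ≤ μ := by
      refine le_trans ?_ (hmult χ hχ)
      have h3 := sum_le_mult hφ ρ ((Finset.univ.image (fun g => χ g)).image
        (fun α : (𝓞 E)ˣ => (q : 𝓞 E) * ((α⁻¹ : (𝓞 E)ˣ) : 𝓞 E))) hqR (Q := Q χ) (by
          intro β hβ
          obtain ⟨α, hα, rfl⟩ := Finset.mem_image.1 hβ
          obtain ⟨g, -, rfl⟩ := Finset.mem_image.1 hα
          rw [map_mul, map_natCast, ← map_inv, hρ, mul_one]) (hne _ (hQ0 χ hχ)) (by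
          intro β hβ
          obtain ⟨α, hα, rfl⟩ := Finset.mem_image.1 hβ
          rw [map_mul, map_natCast]
          exact mul_ne_zero (Nat.cast_ne_zero.2 hq0) (((α⁻¹).isUnit.map φ).ne_zero))
      refine le_trans (le_of_eq ?_) h3
      have hqA : (q : 𝓞 E) ≠ 0 := Nat.cast_ne_zero.2 hq0
      have h6 : ∑ β ∈ (Finset.univ.image (fun g => χ g)).image
          (fun α : (𝓞 E)ˣ => (q : 𝓞 E) * ((α⁻¹ : (𝓞 E)ˣ) : 𝓞 E)),
          ((Q χ).map φ).rootMultiplicity (φ β)⁻¹ = ∑ α ∈ Finset.univ.image (fun g => χ g),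
          ((Q χ).map φ).rootMultiplicity (φ ((q : 𝓞 E) * ((α⁻¹ : (𝓞 E)ˣ) : 𝓞 E)))⁻¹ := by
        apply Finset.sum_image
        intro α _ α' _ h
        have h5 : ((α⁻¹ : (𝓞 E)ˣ) : 𝓞 E) = ((α'⁻¹ : (𝓞 E)ˣ) : 𝓞 E) := mul_left_cancel₀ hqA h
        exact inv_injective (Units.ext h5)
      rw [h6]
      refine Finset.sum_congr rfl fun α _ => ?_
      congr 1
      rw [map_mul, map_natCast, mul_inv]
      have h4 : φ ((α⁻¹ : (𝓞 E)ˣ) : 𝓞 E) * φ ((α : (𝓞 E)ˣ) : 𝓞 E) = 1 := by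
        rw [← map_mul, ← Units.val_mul, inv_mul_cancel, Units.val_one, map_one]
      rw [inv_eq_of_mul_eq_one_right h4, mul_comm]
    rw [h1]
    calc ∑ α ∈ Finset.univ.image (fun g => χ g), (Finset.univ.filter fun g => χ g = α).card *
          ((Q χ).map φ).rootMultiplicity (φ (α : 𝓞 E) * (q : E)⁻¹)
        ≤ ∑ α ∈ Finset.univ.image (fun g => χ g), Nat.card χ.ker *
          ((Q χ).map φ).rootMultiplicity (φ (α : 𝓞 E) * (q : E)⁻¹) :=
          Finset.sum_le_sum fun α _ => Nat.mul_le_mul_right _ (card_fibre χ α)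
      _ = Nat.card χ.ker * ∑ α ∈ Finset.univ.image (fun g => χ g),
          ((Q χ).map φ).rootMultiplicity (φ (α : 𝓞 E) * (q : E)⁻¹) := by rw [Finset.mul_sum]
      _ ≤ Nat.card χ.ker * μ := Nat.mul_le_mul_left _ h2
      _ = _ := mul_comm _ _
  -- the order of `P g`
  have hord : ∀ g : G, oq q (P g) = ∑ χ ∈ Finset.univ.filter (fun χ : G →* (𝓞 E)ˣ => χ ≠ 1),
      n χ g := by
    intro g
    have h1 : (P g).map (algebraMap ℤ (𝓞 E)) =
        ∏ χ ∈ Finset.univ.filter (fun χ : G →* (𝓞 E)ˣ => χ ≠ 1),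
          (Q χ).comp (C ((χ g : (𝓞 E)ˣ) : 𝓞 E) * X) := by
      apply Polynomial.coe_injective (𝓞 E)
      rw [Polynomial.polynomial_map_coe, Pool.Agent.W343.BSD.coe_prod']
      have h2 := hP g
      have h3 : (∏ᶠ (χ : G →* (𝓞 E)ˣ) (_ : χ ≠ 1), cS d L D χ g) =
          ∏ χ ∈ Finset.univ.filter (fun χ : G →* (𝓞 E)ˣ => χ ≠ 1), cS d L D χ g := by
        rw [← finprod_mem_finset_eq_prod]
        apply finprod_congr
        intro χ
        simp
      rw [h3] at h2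
      have h4 : (∏ χ ∈ Finset.univ.filter (fun χ : G →* (𝓞 E)ˣ => χ ≠ 1), cS d L D χ g) *
          ∏ χ ∈ Finset.univ.filter (fun χ : G →* (𝓞 E)ˣ => χ ≠ 1),
            (((Q χ).comp (C ((χ g : (𝓞 E)ˣ) : 𝓞 E) * X) : (𝓞 E)[X]) : PowerSeries (𝓞 E)) = 1 := by
        rw [← Finset.prod_mul_distrib]
        refine Finset.prod_eq_one fun χ hχ => ?_
        have h5 : (((Q χ).comp (C ((χ g : (𝓞 E)ˣ) : 𝓞 E) * X) : (𝓞 E)[X]) :
            PowerSeries (𝓞 E)) =
            PowerSeries.rescale ((χ g : (𝓞 E)ˣ) : 𝓞 E) (Q χ : PowerSeries (𝓞 E)) := by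
          ext i
          rw [PowerSeries.coeff_rescale, Polynomial.coeff_coe, Polynomial.coeff_coe,
            Polynomial.comp_C_mul_X_coeff, mul_comm]
        rw [h5, cS_twist hfin, ← map_mul, hQ χ (Finset.mem_filter.1 hχ).2, map_one]
      exact inv_unique' h2 h4
    have h2 : oq q (P g) = (((P g).map (algebraMap ℤ (𝓞 E))).map φ).rootMultiplicity
        ((q : E)⁻¹) := by
      unfold oq
      have h1 := Polynomial.eq_rootMultiplicity_map (p := (P g).map (Int.castRingHom ℚ))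
        (algebraMap ℚ E).injective ((q : ℚ)⁻¹)
      rw [h1, map_inv₀, map_natCast, Polynomial.map_map, Polynomial.map_map]
      congr 2
      exact RingHom.ext_int _ _
    have h3 : ∀ χ ∈ Finset.univ.filter (fun χ : G →* (𝓞 E)ˣ => χ ≠ 1),
        ((Q χ).comp (C ((χ g : (𝓞 E)ˣ) : 𝓞 E) * X)).map φ ≠ 0 := by
      intro χ hχ
      apply hne
      rw [Polynomial.comp_C_mul_X_coeff, pow_zero, mul_one, hQ0 χ (Finset.mem_filter.1 hχ).2]
    rw [h2, h1, Polynomial.map_prod, Pool.Agent.W343.BSD.rm_prod _ _ _ h3]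
    refine Finset.sum_congr rfl fun χ hχ => ?_
    have h4 : ((Q χ).comp (C ((χ g : (𝓞 E)ˣ) : 𝓞 E) * X)).map φ =
        ((Q χ).map φ).comp (C (φ ((χ g : (𝓞 E)ˣ) : 𝓞 E)) * X + C 0) := by
      rw [Polynomial.map_comp, Polynomial.map_mul, Polynomial.map_C, Polynomial.map_X, C_0,
        add_zero]
    rw [h4, rootMultiplicity_comp_C_mul_X_add_C _ _ _ _ (((χ g).isUnit.map φ)), add_zero]
  -- conjugate characters
  have hconj : ∀ χ χ' : G →* (𝓞 E)ˣ, χ ≠ 1 → χ' ≠ 1 → χ.ker = χ'.ker → ∀ g : G, n χ g ≠ 0 →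
      n χ' g ≠ 0 := by
    intro χ χ' hχ hχ' hker g hg
    obtain ⟨j, hj, hjj⟩ := exists_pow hker
    have hjN : j.Coprime (ℓ ^ a) := by
      apply Nat.Coprime.pow_right
      rw [Nat.coprime_comm, hℓ.coprime_iff_not_dvd]
      intro hdj
      have h1 : ℓ ∣ Nat.card (G ⧸ χ.ker) := by
        obtain ⟨x, hx⟩ : ∃ x, χ x ≠ 1 := by
          by_contra hcon
          push Not at hcon
          exact hχ (MonoidHom.ext hcon)
        have h2 : orderOf (x : G ⧸ χ.ker) ∣ ℓ ^ a := by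
          apply orderOf_dvd_of_pow_eq_one
          rw [← QuotientGroup.mk_pow, hG]
          rfl
        have h3 : orderOf (x : G ⧸ χ.ker) ≠ 1 := by
          rw [Ne, orderOf_eq_one_iff, QuotientGroup.eq_one_iff, MonoidHom.mem_ker]
          exact hx
        obtain ⟨i, -, hi⟩ := (Nat.dvd_prime_pow hℓ).1 h2
        have hi0 : i ≠ 0 := by
          rintro rfl
          exact h3 (by rw [hi, pow_zero])
        exact (dvd_pow_self ℓ hi0).trans (hi ▸ orderOf_dvd_natCard _)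
      have h2 := Nat.dvd_gcd hdj h1
      rw [hj.gcd_eq_one] at h2
      exact hℓ.one_lt.ne' (Nat.dvd_one.1 h2)
    obtain ⟨σ, σF, hσF, hσ⟩ := exists_conj2 E (pow_pos hℓ.pos a) hω hjN
    have hval : ∀ x, σ ((χ x : (𝓞 E)ˣ) : 𝓞 E) = ((χ' x : (𝓞 E)ˣ) : 𝓞 E) := by
      intro x
      rw [hσ, hjj, MonoidHom.pow_apply, Units.val_pow_eq_pow_val]
      rw [← Units.val_pow_eq_pow_val, ← map_pow, hG, map_one, Units.val_one]
    have hone : ∀ x, χ x = 1 ↔ χ' x = 1 := by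
      intro x
      rw [← MonoidHom.mem_ker, ← MonoidHom.mem_ker, hker]
    have hQσ : (Q χ).map σ = Q χ' := by
      apply Polynomial.coe_injective (𝓞 E)
      rw [Polynomial.polynomial_map_coe]
      refine inv_unique' (a := cS d L D χ' 1) ?_ (hQ χ' hχ')
      rw [← cS_map hfin σ hval hone, ← map_mul, hQ χ hχ, map_one]
    have hn1 : ∀ ψ : G →* (𝓞 E)ˣ, ψ ≠ 1 → (n ψ g ≠ 0 ↔
        ((Q ψ).map φ).eval (φ (ψ g) * (q : E)⁻¹) = 0) := by
      intro ψ hψ
      rw [← Nat.pos_iff_ne_zero, hn]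
      exact (Polynomial.rootMultiplicity_pos (hne _ (hQ0 ψ hψ)))
    rw [hn1 χ' hχ']
    have h1 := (hn1 χ hχ).1 hg
    have h2 := congrArg σF h1
    rw [map_zero, ← Polynomial.eval_map_apply, Polynomial.map_map] at h2
    have h3 : σF.comp φ = φ.comp σ := RingHom.ext fun x => (hσF x).symm
    have h4 : σF (q : E)⁻¹ = (q : E)⁻¹ := by rw [map_inv₀, map_natCast]
    rw [h3, ← Polynomial.map_map, hQσ, map_mul, ← hσF, hval, h4] at h2
    exact h2
  have hmem : ∀ χ : G →* (𝓞 E)ˣ, χ ≠ 1 → χ.ker ≠ ⊤ ∧ IsCyclic (G ⧸ χ.ker) := by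
    intro χ hχ
    refine ⟨?_, quot_cyclic χ⟩
    intro h
    apply hχ
    ext x
    have : x ∈ χ.ker := by rw [h]; exact Subgroup.mem_top x
    rw [MonoidHom.mem_ker.1 this, MonoidHom.one_apply]
  set S := Finset.univ.filter (fun H : Subgroup G => H ≠ ⊤ ∧ IsCyclic (G ⧸ H)) with hS
  set X := Finset.univ.filter (fun χ : G →* (𝓞 E)ˣ => χ ≠ 1) with hXd
  have hXS : ∀ χ ∈ X, χ.ker ∈ S := by
    intro χ hχ
    rw [hS, Finset.mem_filter]
    exact ⟨Finset.mem_univ _, hmem χ (Finset.mem_filter.1 hχ).2⟩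
  refine ⟨?_, ?_⟩
  · calc ∑ g : G, oq q (P g) = ∑ χ ∈ X, ∑ g : G, n χ g := by
          rw [Finset.sum_comm]
          exact Finset.sum_congr rfl fun g _ => hord g
      _ ≤ ∑ χ ∈ X, μ * Nat.card χ.ker :=
          Finset.sum_le_sum fun χ hχ => hsum χ (Finset.mem_filter.1 hχ).2
      _ = μ * ∑ χ ∈ X, Nat.card χ.ker := by rw [Finset.mul_sum]
      _ = μ * ∑ H ∈ S, ∑ χ ∈ X.filter (fun χ => χ.ker = H), Nat.card χ.ker := by
          rw [Finset.sum_fiberwise_of_maps_to hXS]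
      _ ≤ μ * ∑ H ∈ S, Nat.totient (Nat.card (G ⧸ H)) * Nat.card H := by
          refine Nat.mul_le_mul_left _ (Finset.sum_le_sum fun H _ => ?_)
          rw [Finset.sum_congr rfl (g := fun _ => Nat.card H) (fun χ hχ => by
            rw [(Finset.mem_filter.1 hχ).2]), Finset.sum_const, smul_eq_mul]
          exact Nat.mul_le_mul_right _ (card_chars H _ fun χ hχ => (Finset.mem_filter.1 hχ).2)
      _ = _ := by rw [hS, Finset.sum_filter]
  · -- one character for each kernel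
    have hsub : (Finset.univ.filter fun g => oq q (P g) ≠ 0) ⊆
        S.biUnion fun H => Finset.univ.filter fun g => ∃ χ ∈ X, χ.ker = H ∧ n χ g ≠ 0 := by
      intro g hg
      rw [Finset.mem_filter, hord] at hg
      obtain ⟨χ, hχ, hχg⟩ := Finset.exists_ne_zero_of_sum_ne_zero hg.2
      rw [Finset.mem_biUnion]
      refine ⟨χ.ker, hXS χ hχ, ?_⟩
      rw [Finset.mem_filter]
      exact ⟨Finset.mem_univ _, χ, hχ, rfl, hχg⟩
    refine (Finset.card_le_card hsub).trans (Finset.card_biUnion_le.trans ?_)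
    have hH : ∀ H ∈ S, (Finset.univ.filter fun g => ∃ χ ∈ X, χ.ker = H ∧ n χ g ≠ 0).card ≤
        μ * Nat.card H := by
      intro H _
      by_cases hex : ∃ χ ∈ X, χ.ker = H
      · obtain ⟨χ, hχ, rfl⟩ := hex
        refine le_trans ?_ (hsum χ (Finset.mem_filter.1 hχ).2)
        rw [Finset.card_filter]
        refine Finset.sum_le_sum fun g _ => ?_
        split_ifs with h
        · obtain ⟨χ', hχ', hk, hng⟩ := h
          have := hconj χ' χ (Finset.mem_filter.1 hχ').2 (Finset.mem_filter.1 hχ).2 hk g hng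
          omega
        · exact Nat.zero_le _
      · rw [Finset.filter_eq_empty_iff.2]
        · simp
        · rintro g - ⟨χ, hχ, hk, -⟩
          exact hex ⟨χ, hχ, hk⟩
    refine (Finset.sum_le_sum hH).trans (le_of_eq ?_)
    rw [← Finset.mul_sum, hS, Finset.sum_filter]

end Pool.Agent.H427.CT
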