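import Pool.Agent.H427.CT.Alg
import Pool.Graph.R_pool_sql_team_seeded_64922ed1.H313.CC.Curve

/-!
Euler products twisted by the characters of an abelian covering and by constant characters.
-/

set_option autoImplicit false
set_option linter.all false
set_option maxHeartbeats 1000000

open Polynomial

namespace Pool.Agent.H427.CT

open Pool.Agent.H313.CC Pool.Agent.W343.BSD

/-- The places `v` of the base, with the inertia group of `v` in the abelian group `G` and an element
of `G` which induces the Frobenius at `v`. -/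
structure Cover (ι G : Type) [CommGroup G] where
  frob : ι → G
  inertia : ι → Subgroup G

section ser

variable {ι G : Type} [CommGroup G] {A : Type} [CommRing A]

open Classical in
/-- The value at `v` of the character `χ` of the covering twisted by `g`: zero if `χ` is not trivial on
the inertia group, and otherwise the value at the product of the Frobenius and `g ^ (deg v)`. -/
noncomputable def charValue (D : Cover ι G) (d : ι → ℕ) (χ : G →* Aˣ) (g : G) (v : ι) : A :=
  if ∀ x ∈ D.inertia v, χ x = 1 then ((χ (D.frob v * g ^ d v) : Aˣ) : A) else 0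

/-- The product of the `L_v(χ(v) T ^ (deg v))`. -/
noncomputable def cS (d : ι → ℕ) (L : ι → ℤ[X]) (D : Cover ι G) (χ : G →* Aˣ) (g : G) :
    PowerSeries A :=
  eulerProd d (fun v => lf (L v) (charValue D d χ g v) (d v))

variable {d : ι → ℕ} {L : ι → ℤ[X]} {D : Cover ι G}

theorem charValue_twist (χ : G →* Aˣ) (g : G) (v : ι) :
    charValue D d χ g v = ((χ g : Aˣ) : A) ^ d v * charValue D d χ 1 v := by
  unfold charValue
  split_ifs with h
  · rw [one_pow, mul_one, map_mul, map_pow, Units.val_mul, Units.val_pow_eq_pow_val, mul_comm]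
  · rw [mul_zero]

theorem cS_twist (hfin : ∀ n, {z | d z ≤ n}.Finite) (χ : G →* Aˣ) (g : G) :
    cS d L D χ g = PowerSeries.rescale ((χ g : Aˣ) : A) (cS d L D χ 1) := by
  show _ = PowerSeries.rescale _ (eulerProd _ _)
  rw [Pool.Agent.TH639.SN.rescale_eulerProd hfin]
  show eulerProd _ _ = _
  congr 1
  funext v
  rw [lf_rescale, charValue_twist]

theorem cS_map (hfin : ∀ n, {z | d z ≤ n}.Finite) {B : Type} [CommRing B] (σ : A →+* B)
    {χ : G →* Aˣ} {χ' : G →* Bˣ} (h : ∀ x, σ (χ x) = χ' x) (h' : ∀ x, χ x = 1 ↔ χ' x = 1) (g : G) :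
    PowerSeries.map σ (cS d L D χ g) = cS d L D χ' g := by
  show PowerSeries.map σ (eulerProd _ _) = eulerProd _ _
  rw [map_eulerProd hfin]
  congr 1
  funext v
  rw [lf_map]
  congr 1
  unfold charValue
  have e : (∀ x ∈ D.inertia v, χ x = 1) ↔ ∀ x ∈ D.inertia v, χ' x = 1 :=
    forall₂_congr fun x _ => h' x
  by_cases hv : ∀ x ∈ D.inertia v, χ x = 1
  · rw [if_pos hv, if_pos (e.1 hv), h]
  · rw [if_neg hv, if_neg (fun h => hv (e.2 h)), map_zero]

theorem cS_unit (hfin : ∀ n, {z | d z ≤ n}.Finite) (hpos : ∀ z, 0 < d z) (χ : G →* Aˣ) (g : G) :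
    PowerSeries.constantCoeff (cS d L D χ g) = 1 := one_of_pos hfin hpos _

open Classical in
/-- the product modulo `ℓ` -/
theorem cS_red (hfin : ∀ n, {z | d z ≤ n}.Finite) (hL : ∀ z, (L z).coeff 0 = 1) {R : Type}
    [CommRing R] (ρ : A →+* R) {χ : G →* Aˣ} (hρ : ∀ x, ρ (χ x) = 1) (g : G) (T : Finset ι)
    (hT : ∀ v, v ∈ T ↔ ¬ ∀ x ∈ D.inertia v, χ x = 1) :
    PowerSeries.map (Int.castRingHom R) (zAll d L) = PowerSeries.map ρ (cS d L D χ g) *
      ((∏ v ∈ T, ((L v).comp (X ^ d v)).map (Int.castRingHom R) : R[X]) : PowerSeries R) := by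
  have h1 : PowerSeries.map ρ (cS d L D χ g) =
      eulerProd d (fun v => if ∀ x ∈ D.inertia v, χ x = 1 then (lf (L v) 1 (d v) : PowerSeries R)
        else 1) := by
    show PowerSeries.map ρ (eulerProd _ _) = _
    rw [map_eulerProd hfin]
    congr 1
    funext v
    rw [lf_map]
    unfold charValue
    split_ifs with hv
    · rw [hρ]
    · rw [map_zero, lf_zero (hL v)]
  have h4 : eulerProd d (fun v => if ∀ x ∈ D.inertia v, χ x = 1 then (1 : PowerSeries R)
        else lf (L v) 1 (d v)) =
      ((∏ v ∈ T, ((L v).comp (X ^ d v)).map (Int.castRingHom R) : R[X]) : PowerSeries R) := by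
    rw [eulerProd_of_finset hfin _ T]
    · rw [Pool.Agent.W343.BSD.coe_prod']
      refine Finset.prod_congr rfl fun v hv => ?_
      rw [if_neg ((hT v).1 hv)]
      have h5 : (lf (L v) 1 (d v) : PowerSeries R) =
          PowerSeries.map (Int.castRingHom R) (lf (L v) (1 : ℤ) (d v)) := by
        rw [lf_map, map_one]
      rw [h5, lf_int, Polynomial.polynomial_map_coe]
    · intro v hv
      rw [hT, not_not] at hv
      rw [if_pos hv]
    · intro v
      split_ifs
      · rw [sub_self]; exact dvd_zero _
      · exact lf_mod (hL v) _ _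
  rw [h1, ← h4, ← eulerProd_mul hfin]
  · show PowerSeries.map _ (eulerProd _ _) = _
    rw [map_eulerProd hfin]
    congr 1
    funext v
    rw [lf_map, map_one]
    split_ifs
    · rw [mul_one]
    · rw [one_mul]
  · intro v
    split_ifs
    · exact lf_mod (hL v) _ _
    · rw [sub_self]; exact dvd_zero _
  · intro v
    split_ifs
    · rw [sub_self]; exact dvd_zero _
    · exact lf_mod (hL v) _ _

end ser

end Pool.Agent.H427.CT
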